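import Pool.Agent.TH673.VG.Crit
import Pool.Agent.TH673.VG.CoreDefs

/-! Counting orthogonal pairs in a quaternionic structure. -/

set_option autoImplicit false

namespace Pool.Agent.HP778.QS

open Pool.Agent.H315R3.ETC Pool.Agent.TH673.VG

section grp

variable {G : Type} [CommGroup G] [Finite G]

lemma idx_pos (W : Subgroup G) : 0 < W.index :=
  Nat.pos_of_ne_zero Subgroup.index_ne_zero_of_finite

lemma rel_pos (W V : Subgroup G) : 0 < W.relIndex V :=
  Nat.pos_of_ne_zero Subgroup.index_ne_zero_of_finite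

/-- a proper subgroup has at most half as many elements -/
lemma card_half {W V : Subgroup G} (h1 : W ≤ V) (h2 : ¬ V ≤ W) :
    2 * Nat.card W ≤ Nat.card V := by
  have e1 := Subgroup.relIndex_mul_index h1
  have e2 := W.card_mul_index
  have e3 := V.card_mul_index
  have e4 : W.relIndex V ≠ 1 := fun e => h2 (Subgroup.relIndex_eq_one.1 e)
  have e5 := rel_pos W V
  have e6 : 2 ≤ W.relIndex V := by omega
  have e7 := idx_pos V
  have e8 : 2 * Nat.card W * V.index ≤ Nat.card V * V.index := by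
    calc 2 * Nat.card W * V.index ≤ W.relIndex V * Nat.card W * V.index :=
          Nat.mul_le_mul_right _ (Nat.mul_le_mul_right _ e6)
      _ = Nat.card W * (W.relIndex V * V.index) := by ring
      _ = Nat.card V * V.index := by rw [e1, e2, e3]
  exact Nat.le_of_mul_le_mul_right e8 e7

omit [Finite G] in
lemma card_of_index {W : Subgroup G} {n : ℕ} (h : W.index ≤ n) :
    Nat.card G ≤ n * Nat.card W := by
  rw [← W.card_mul_index, mul_comm n]
  exact Nat.mul_le_mul_left _ h

end grp

variable {S : QData} (h : IsQuat S) [Finite S.G]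

omit [Finite S.G] in
lemma D_comm {a b : S.G} : b ∈ D h a ↔ a ∈ D h b := by
  show S.q a b = S.zero ↔ S.q b a = S.zero
  rw [h.qs2]

/-- the pairs `(r,n)`, `r ∉ N`, `n ∈ N`, with `q(r,n) = 0` -/
def cross (S : QData) (N : Subgroup S.G) : Set (S.G × S.G) :=
  {p | p.1 ∉ N ∧ p.2 ∈ N ∧ S.q p.1 p.2 = S.zero}

include h in
/-- a value group of index at most two -/
lemma indexTwo_of_index {a : S.G} (ha : (D h a).index ≤ 2) : IndexTwo S a := by
  intro x y
  by_cases hx : x ∈ D h a
  · exact Or.inl hx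
  by_cases hy : y ∈ D h a
  · exact Or.inr (Or.inl hy)
  right; right
  have h0 : (D h a).index ≠ 0 := Subgroup.index_ne_zero_of_finite
  have h1 : (D h a).index ≠ 1 := fun e => hx (by rw [Subgroup.index_eq_one.1 e]; trivial)
  have h2 : (D h a).index = 2 := by omega
  exact (Subgroup.mul_mem_iff_of_index_two h2).2 ⟨fun e => absurd e hx, fun e => absurd e hy⟩

/-- the number of `n ∈ N` outside `C` with `V(n) ⊄ N` -/
lemma bad_count (N : Subgroup S.G) (C : Set S.G) (h1 : ∀ a ∈ N, a ∉ C → (D h a).index ≤ 4) :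
    {n : S.G | n ∈ N ∧ n ∉ C ∧ ¬ D h n ≤ N}.ncard * Nat.card S.G ≤ 8 * (cross S N).ncard := by
  classical
  have := Fintype.ofFinite S.G
  let s : Finset S.G := Finset.univ.filter fun n => n ∈ N ∧ n ∉ C ∧ ¬ D h n ≤ N
  let t : S.G → Finset S.G := fun n => Finset.univ.filter fun r => r ∉ N ∧ r ∈ D h n
  have hs : {n : S.G | n ∈ N ∧ n ∉ C ∧ ¬ D h n ≤ N}.ncard = s.card := by
    rw [← Set.ncard_coe_finset]
    congr 1
    ext n
    simp [s]
  have hm : ∀ n ∈ s, Nat.card S.G ≤ 8 * (t n).card := by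
    intro n hn
    obtain ⟨hnN, hnC, hnb⟩ : n ∈ N ∧ n ∉ C ∧ ¬ D h n ≤ N := by simpa [s] using hn
    have e1 := card_half (W := D h n ⊓ N) (V := D h n) inf_le_left
      (fun e => hnb (e.trans inf_le_right))
    have e2 := card_of_index (h1 n hnN hnC)
    have e3 : ((D h n : Subgroup S.G) : Set S.G) ⊆ ((D h n ⊓ N : Subgroup S.G) : Set S.G) ∪
        ((t n : Finset S.G) : Set S.G) := by
      intro r hr
      by_cases hrN : r ∈ N
      · exact Or.inl ⟨hr, hrN⟩
      · right
        rw [Finset.mem_coe]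
        exact Finset.mem_filter.2 ⟨Finset.mem_univ _, hrN, hr⟩
    have e4 := (Set.ncard_le_ncard e3 (Set.toFinite _)).trans (Set.ncard_union_le _ _)
    rw [Set.ncard_coe_finset] at e4
    have e5 : ((D h n : Subgroup S.G) : Set S.G).ncard = Nat.card (D h n) := rfl
    have e6 : ((D h n ⊓ N : Subgroup S.G) : Set S.G).ncard = Nat.card (D h n ⊓ N : Subgroup S.G) :=
      rfl
    rw [e5, e6] at e4
    omega
  have k1 : s.card * Nat.card S.G ≤ ∑ n ∈ s, 8 * (t n).card := by
    have := Finset.card_nsmul_le_sum s (fun n => 8 * (t n).card) (Nat.card S.G) hm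
    rwa [smul_eq_mul] at this
  have k2 : (s.sigma t).card ≤ (cross S N).ncard := by
    rw [← Set.ncard_coe_finset]
    refine Set.ncard_le_ncard_of_injOn (fun p => (p.2, p.1)) ?_ ?_ (Set.toFinite _)
    · rintro ⟨n, r⟩ hp
      rw [Finset.mem_coe, Finset.mem_sigma] at hp
      obtain ⟨hn, hr⟩ := hp
      have hn' := Finset.mem_filter.1 hn
      have hr' := Finset.mem_filter.1 hr
      exact ⟨hr'.2.1, hn'.2.1, (D_comm h).1 hr'.2.2⟩
    · rintro ⟨n, r⟩ - ⟨n', r'⟩ - e
      simp only [Prod.mk.injEq] at e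
      obtain ⟨rfl, rfl⟩ := e
      rfl
  rw [Finset.card_sigma] at k2
  rw [hs]
  calc s.card * Nat.card S.G ≤ ∑ n ∈ s, 8 * (t n).card := k1
    _ = 8 * ∑ n ∈ s, (t n).card := by rw [Finset.mul_sum]
    _ ≤ 8 * (cross S N).ncard := Nat.mul_le_mul_left _ k2

/-- few pairs if the value groups outside `N` are small -/
lemma cross_count (N : Subgroup S.G) (k : ℕ) (hk : 0 < k)
    (h2 : ∀ a, a ∉ N → Nat.card (D h a) ≤ k) :
    (cross S N).ncard < k * Nat.card S.G := by
  classical
  have := Fintype.ofFinite S.G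
  let s : Finset S.G := Finset.univ.filter fun n => n ∉ N
  let t : S.G → Finset S.G := fun n => Finset.univ.filter fun r => r ∈ D h n
  have hm : ∀ n ∈ s, (t n).card ≤ k := by
    intro n hn
    have hnN : n ∉ N := (Finset.mem_filter.1 hn).2
    have e5 : ((D h n : Subgroup S.G) : Set S.G).ncard = Nat.card (D h n) := rfl
    have e6 : ((t n : Finset S.G) : Set S.G) = ((D h n : Subgroup S.G) : Set S.G) := by
      ext r
      rw [Finset.mem_coe]
      exact ⟨fun e => (Finset.mem_filter.1 e).2, fun e => Finset.mem_filter.2 ⟨Finset.mem_univ _, e⟩⟩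
    rw [← Set.ncard_coe_finset, e6, e5]
    exact h2 n hnN
  have k1 : ∑ n ∈ s, (t n).card ≤ s.card * k := by
    have := Finset.sum_le_card_nsmul s (fun n => (t n).card) k hm
    rwa [smul_eq_mul] at this
  have k2 : (cross S N).ncard ≤ (s.sigma t).card := by
    rw [← Set.ncard_coe_finset]
    refine Set.ncard_le_ncard_of_injOn (fun p => (⟨p.1, p.2⟩ : (_ : S.G) × S.G)) ?_ ?_
      (Set.toFinite _)
    · rintro ⟨r, n⟩ hp
      obtain ⟨e1, -, e3⟩ := hp
      rw [Finset.mem_coe, Finset.mem_sigma]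
      exact ⟨Finset.mem_filter.2 ⟨Finset.mem_univ _, e1⟩,
        Finset.mem_filter.2 ⟨Finset.mem_univ _, e3⟩⟩
    · rintro ⟨r, n⟩ - ⟨r', n'⟩ - e
      simp only [Sigma.mk.injEq, heq_eq_eq] at e
      obtain ⟨rfl, rfl⟩ := e
      rfl
  rw [Finset.card_sigma] at k2
  have ht : s.card < Nat.card S.G := by
    rw [Nat.card_eq_fintype_card]
    refine Finset.card_lt_univ_of_notMem (x := 1) ?_
    simp [s, N.one_mem]
  calc (cross S N).ncard ≤ s.card * k := k2.trans k1
    _ < Nat.card S.G * k := Nat.mul_lt_mul_of_pos_right ht hk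
    _ = k * Nat.card S.G := mul_comm _ _

/-- the elements whose value group has index at most four -/
def large (k : ℕ) (hG : 16 * k < Nat.card S.G)
    (hd : ∀ a : S.G, Nat.card (D h a) ≤ k ∨ (D h a).index ≤ 4) : Subgroup S.G where
  carrier := {a | (D h a).index ≤ 4}
  one_mem' := by
    show (D h 1).index ≤ 4
    have : D h (1 : S.G) = ⊤ := by
      refine le_antisymm le_top fun x _ => ?_
      show S.q 1 x = S.zero
      rw [h.qs2]
      exact q_one h x
    rw [this, Subgroup.index_top]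
    omega
  mul_mem' := by
    intro a b ha hb
    have ha' : (D h a).index ≤ 4 := ha
    have hb' : (D h b).index ≤ 4 := hb
    rcases hd (a * b) with h1 | h1
    · exfalso
      have h2 : (D h a ⊓ D h b).index ≤ 16 :=
        (Subgroup.index_inf_le (H := D h a) (K := D h b)).trans (Nat.mul_le_mul ha' hb')
      have h3 : D h a ⊓ D h b ≤ D h (a * b) := fun x hx => D_inf h a b hx.1 hx.2
      have h4 := card_of_index h2
      have h5 : Nat.card (D h a ⊓ D h b : Subgroup S.G) ≤ Nat.card (D h (a * b)) :=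
        Nat.card_le_card_of_injective _ (Subgroup.inclusion_injective h3)
      omega
    · exact h1
  inv_mem' := by
    intro a ha
    have : a⁻¹ = a := inv_eq_of_mul_eq_one_right (h.exp2 a)
    rw [this]
    exact ha

end Pool.Agent.HP778.QS
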