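import Pool.Agent.R19.QS.Sub
import Pool.Agent.HP778.QS.Count

/-! Quaternionic structures in which almost all elements of a large subgroup have large value
groups. -/

set_option autoImplicit false

namespace Pool.Agent.HP778.QS

open Pool.Agent.H315R3.ETC Pool.Agent.TH673.VG Pool.Agent.R19.QS

variable {S : QData} (h : IsQuat S) [Finite S.G]

omit [Finite S.G] in
include h in
lemma bmul (b x : S.G) : b * (b * x) = x := by rw [← mul_assoc, h.exp2, one_mul]

lemma pre_card (A : Set S.G) (b : S.G) : {x : S.G | b * x ∈ A}.ncard ≤ A.ncard :=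
  Set.ncard_le_ncard_of_injOn (fun x => b * x) (fun _ hx => hx)
    (fun _ _ _ _ e => mul_left_cancel e) (Set.toFinite _)

/-- almost all value groups have index at most four -/
theorem stepTwo_of_almost
    (hB : 64 * {a : S.G | a ∉ Core S ∧ 4 < (D h a).index}.ncard < Nat.card S.G)
    (H : Subgroup S.G) (hH : H ≠ ⊤) (hI : ∀ a, IndexTwo S a → a ∈ H) : StepTwo S H := by
  by_contra hcon
  set Bad : Set S.G := {a : S.G | a ∉ Core S ∧ 4 < (D h a).index} with hBad
  have hno : ∀ a : S.G, a ∉ H → D h a ⊔ H ≠ ⊤ := fun a ha htop =>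
    hcon (stepTwo_of_step (step_of_sup h ha htop))
  have hcl : Closed S H := by
    refine ⟨hI, fun a ha => ?_⟩
    by_contra haH
    refine hno a haH ?_
    rw [eq_top_iff]
    intro x _
    obtain ⟨v, k, hv, hk, e⟩ := ha x
    rw [← e]
    exact Subgroup.mul_mem_sup hv hk
  have hcore : Core S ≤ H := sInf_le hcl
  have hH8 : 8 ≤ H.index := by
    by_contra hc
    push Not at hc
    exact hcon (stepTwo_of_step (step_of_index h H hH hc))
  have hHc : 8 * Nat.card H ≤ Nat.card S.G := by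
    rw [← H.card_mul_index, mul_comm]
    exact Nat.mul_le_mul_left _ hH8
  have hHn : (H : Set S.G).ncard = Nat.card H := rfl
  have key : ∀ a : S.G, a ∉ H → a ∉ Bad → (D h a).index = 4 := by
    intro a haH haB
    have h4 : 4 ≤ (D h a).index := four_le h fun hc => haH (hI a hc)
    have h5 : (D h a).index ≤ 4 := by
      by_contra hc
      push Not at hc
      exact haB ⟨fun hc' => haH (hcore hc'), hc⟩
    omega
  have all : ∀ b : S.G, (D h b).index ≤ 16 := by
    intro b
    obtain ⟨x, hx⟩ : ∃ x, x ∉ ((H : Set S.G) ∪ {x | b * x ∈ (H : Set S.G)}) ∪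
        (Bad ∪ {x | b * x ∈ Bad}) := by
      by_contra hc
      push Not at hc
      have e1 : (Set.univ : Set S.G) ⊆ ((H : Set S.G) ∪ {x | b * x ∈ (H : Set S.G)}) ∪
        (Bad ∪ {x | b * x ∈ Bad}) := fun x _ => hc x
      have e2 := Set.ncard_le_ncard e1 (Set.toFinite _)
      have e3 := Set.ncard_union_le ((H : Set S.G) ∪ {x | b * x ∈ (H : Set S.G)})
        (Bad ∪ {x | b * x ∈ Bad})
      have e4 := Set.ncard_union_le (H : Set S.G) {x | b * x ∈ (H : Set S.G)}
      have e5 := Set.ncard_union_le Bad {x | b * x ∈ Bad}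
      have e6 := pre_card (H : Set S.G) b
      have e7 := pre_card Bad b
      rw [Set.ncard_univ] at e2
      have : 0 < Nat.card S.G := Nat.card_pos
      omega
    have x1 : x ∉ H := fun e => hx (Or.inl (Or.inl e))
    have x2 : b * x ∉ H := fun e => hx (Or.inl (Or.inr e))
    have x3 : x ∉ Bad := fun e => hx (Or.inr (Or.inl e))
    have x4 : b * x ∉ Bad := fun e => hx (Or.inr (Or.inr e))
    have i1 := key x x1 x3
    have i2 := key (b * x) x2 x4
    have i3 : D h x ⊓ D h (b * x) ≤ D h b := by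
      intro y hy
      have := D_inf h x (b * x) hy.1 hy.2
      have e : x * (b * x) = b := by rw [mul_comm b x, ← mul_assoc, h.exp2, one_mul]
      rwa [e] at this
    have i4 := Nat.le_of_dvd (idx_pos _) (Subgroup.index_dvd_of_le i3)
    refine i4.trans ((Subgroup.index_inf_le (H := D h x) (K := D h (b * x))).trans ?_)
    rw [i1, i2]
  have idx : ∀ z : S.G, z ∉ H → z ∉ Bad → ∀ u ∈ H, ∀ v ∈ H, S.q z u ≠ S.zero →
      S.q z v ≠ S.zero → S.q z (u * v) = S.zero := by
    intro z hz hzB u hu v hv hu0 hv0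
    by_contra huv
    have hk := key z hz hzB
    have h1 : D h z < D h z ⊔ Subgroup.zpowers u := lt_sup_zpowers hu0
    have h2 : v ∉ D h z ⊔ Subgroup.zpowers u := by
      intro hc
      rcases mem_sup_z h hc with hc | hc
      · exact hv0 hc
      · apply huv
        rw [mul_comm]
        exact hc
    have h3 := two_mul_index h1
    have h4 := two_mul_index (lt_sup_zpowers h2)
    have h5 := index_pos (D h z ⊔ Subgroup.zpowers u ⊔ Subgroup.zpowers v)
    have h6 : D h z ⊔ Subgroup.zpowers u ⊔ Subgroup.zpowers v = ⊤ :=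
      Subgroup.index_eq_one.1 (by omega)
    apply hno z hz
    rw [eq_top_iff, ← h6]
    refine sup_le (sup_le le_sup_left ?_) ?_
    · rw [Subgroup.zpowers_le]
      exact Subgroup.mem_sup_right hu
    · rw [Subgroup.zpowers_le]
      exact Subgroup.mem_sup_right hv
  obtain ⟨a, ha, haB⟩ : ∃ b : S.G, b ∉ H ∧ b ∉ Bad := by
    by_contra hc'
    push Not at hc'
    have e1 : (Set.univ : Set S.G) ⊆ (H : Set S.G) ∪ Bad := by
      intro x _
      by_cases hx : x ∈ H
      · exact Or.inl hx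
      · exact Or.inr (hc' x hx)
    have e2 := (Set.ncard_le_ncard e1 (Set.toFinite _)).trans (Set.ncard_union_le _ _)
    rw [Set.ncard_univ] at e2
    omega
  have hka := key a ha haB
  have vary : ∀ l y : S.G, y ∈ D h (a * l) → ∃ u ∈ D h a, y * u ∈ D h (a * l) ∧ y * u ∉ Bad := by
    intro l y hy
    have i1 : (D h a ⊓ D h (a * l)).index ≤ 64 := by
      refine (Subgroup.index_inf_le (H := D h a) (K := D h (a * l))).trans ?_
      rw [hka]
      exact Nat.mul_le_mul_left 4 (all (a * l))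
    have i2 := card_of_index i1
    by_contra hc
    push Not at hc
    have e1 : ((D h a ⊓ D h (a * l) : Subgroup S.G) : Set S.G).ncard ≤ Bad.ncard :=
      Set.ncard_le_ncard_of_injOn (fun u => y * u)
        (fun u hu => hc u hu.1 ((D h (a * l)).mul_mem hy hu.2))
        (fun _ _ _ _ e => mul_left_cancel e) (Set.toFinite _)
    have e2 : ((D h a ⊓ D h (a * l) : Subgroup S.G) : Set S.G).ncard =
      Nat.card (D h a ⊓ D h (a * l) : Subgroup S.G) := rfl
    rw [e2] at e1
    omega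
  have shift : ∀ (K : Subgroup S.G) (y u : S.G), D h a ≤ K → u ∈ D h a → y ∉ K → y * u ∉ K := by
    intro K y u hK hu hy hc
    exact hy ((K.mul_mem_cancel_right (hK hu)).1 hc)
  obtain ⟨g, hg, z, hz, hzn, hzB⟩ : ∃ g ∈ H, ∃ z, z ∈ D h (a * g) ∧ z ∉ D h a ⊔ H ∧ z ∉ Bad := by
    obtain ⟨g, hg, z, hz, hzn⟩ : ∃ g ∈ H, ∃ z, z ∈ D h (a * g) ∧ z ∉ D h a ⊔ H := by
      by_contra hc
      push Not at hc
      refine hcon (stepTwo_of_step ⟨a, ha, fun g hg x hx => ?_⟩)
      obtain ⟨v, hv, k, hk, e⟩ := Subgroup.mem_sup.1 (hc g hg x hx)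
      exact ⟨v, k, hv, hk, e⟩
    obtain ⟨u, hu, h1, h2⟩ := vary g z hz
    exact ⟨g, hg, z * u, h1, shift _ z u le_sup_left hu hzn, h2⟩
  obtain ⟨g', hg', z', hz', hzn', hzm', hzB'⟩ : ∃ g' ∈ H, ∃ z', z' ∈ D h (a * g') ∧
      z' ∉ D h a ⊔ H ∧ z' ∉ D h a ⊔ D h (a * g) ∧ z' ∉ Bad := by
    obtain ⟨g', hg', z', hz', hzn', hzm'⟩ : ∃ g' ∈ H, ∃ z', z' ∈ D h (a * g') ∧
        z' ∉ D h a ⊔ H ∧ z' ∉ D h a ⊔ D h (a * g) := by
      by_contra hc
      push Not at hc
      refine hcon ⟨a, ha, g, hg, fun g' hg' x hx => ?_⟩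
      by_cases hx1 : x ∈ D h a ⊔ H
      · obtain ⟨v, hv, k, hk, e⟩ := Subgroup.mem_sup.1 hx1
        exact Or.inl ⟨v, k, Or.inl hv, hk, e⟩
      · obtain ⟨v, hv, w, hw, e⟩ := Subgroup.mem_sup.1 (hc g' hg' x hx hx1)
        exact Or.inr ⟨v, w, hv, hw, e⟩
    obtain ⟨u, hu, h1, h2⟩ := vary g' z' hz'
    exact ⟨g', hg', z' * u, h1, shift _ z' u le_sup_left hu hzn',
      shift _ z' u le_sup_left hu hzm', h2⟩
  have hzV : z ∉ D h a := fun hc => hzn (Subgroup.mem_sup_left hc)
  have hzV' : z' ∉ D h a := fun hc => hzn' (Subgroup.mem_sup_left hc)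
  have hzH : z ∉ H := fun hc => hzn (Subgroup.mem_sup_right hc)
  have hzH' : z' ∉ H := fun hc => hzn' (Subgroup.mem_sup_right hc)
  have hne : ∀ y k : S.G, y ∈ D h (a * k) → y ∉ D h a → S.q y k ≠ S.zero := by
    intro y k hy hya hc
    apply hya
    show S.q a y = S.zero
    rw [h.qs2]
    have h2 : S.q y (a * k) = S.zero := by rw [h.qs2]; exact hy
    have h3 := p_mul h h2 hc
    rwa [mul_cancel h] at h3
  have hz1 := hne z g hz hzV
  have hz1' := hne z' g' hz' hzV'
  -- an element `k` with `z, z' ∈ V(ak)`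
  obtain ⟨k, hk, hk1, hk2⟩ : ∃ k ∈ H, S.q z k ≠ S.zero ∧ S.q z' k ≠ S.zero := by
    by_cases c1 : S.q z' g = S.zero
    · by_cases c2 : S.q z g' = S.zero
      · refine ⟨g * g', H.mul_mem hg hg', fun hc => hz1 ?_, fun hc => hz1' ?_⟩
        · have := p_mul h hc c2
          rwa [mul_cancel h] at this
        · rw [mul_comm] at hc
          have := p_mul h hc c1
          rwa [mul_cancel h] at this
      · exact ⟨g', hg', c2, hz1'⟩
    · exact ⟨g, hg, hz1, c1⟩
  have hin : ∀ y l : S.G, y ∉ H → y ∉ Bad → l ∈ H → y ∈ D h (a * l) → S.q y l ≠ S.zero →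
      S.q y k ≠ S.zero → y ∈ D h (a * k) := by
    intro y l hyH hyB hl hy hyl hyk
    have h1 := idx y hyH hyB l hl k hk hyl hyk
    have h2 : S.q y (a * l) = S.zero := by rw [h.qs2]; exact hy
    have h3 := p_mul h h2 h1
    rw [← mul_assoc, mul_cancel h] at h3
    show S.q (a * k) y = S.zero
    rw [h.qs2]
    exact h3
  have hzk := hin z g hzH hzB hg hz hz1 hk1
  have hzk' := hin z' g' hzH' hzB' hg' hz' hz1' hk2
  have h1 := two_mul_index (lt_sup_zpowers hzV)
  have h2 : D h a ⊔ Subgroup.zpowers z < D h a ⊔ D h (a * k) := by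
    refine lt_of_le_of_ne (sup_le le_sup_left (by
      rw [Subgroup.zpowers_le]
      exact Subgroup.mem_sup_right hzk)) fun e => hzm' ?_
    have h3 : z' ∈ D h a ⊔ Subgroup.zpowers z := by
      rw [e]
      exact Subgroup.mem_sup_right hzk'
    have h4 : D h a ⊔ Subgroup.zpowers z ≤ D h a ⊔ D h (a * g) :=
      sup_le le_sup_left (by
        rw [Subgroup.zpowers_le]
        exact Subgroup.mem_sup_right hz)
    exact h4 h3
  have h3 := two_mul_index h2
  have h4 := index_pos (D h a ⊔ D h (a * k))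
  have h5 : D h a ⊔ D h (a * k) = ⊤ := Subgroup.index_eq_one.1 (by omega)
  refine hcon ⟨a, ha, k, hk, fun l _ x _ => Or.inr ?_⟩
  have hx : x ∈ D h a ⊔ D h (a * k) := by rw [h5]; trivial
  obtain ⟨v, hv, w, hw, e⟩ := Subgroup.mem_sup.1 hx
  exact ⟨v, w, hv, hw, e⟩

/-- the exceptional elements of `W` -/
def exc (h : IsQuat S) (W : Subgroup S.G) : Set S.G :=
  {a : S.G | a ∈ W ∧ a ∉ Core S ∧ 4 < (D h a ⊓ W).index}

omit [Finite S.G] in
include h in
lemma isP : IsPGroup 2 S.G := by
  intro x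
  exact ⟨1, by rw [pow_one, pow_two, h.exp2]⟩

include h in
lemma index_cases (A : Subgroup S.G) : A.index ≤ 4 ∨ 8 ≤ A.index := by
  obtain ⟨n, hn⟩ := (isP h).index A
  rw [hn]
  by_cases hn2 : n ≤ 2
  · left
    calc 2 ^ n ≤ 2 ^ 2 := Nat.pow_le_pow_right (by norm_num) hn2
      _ = 4 := by norm_num
  · right
    calc 8 = 2 ^ 3 := by norm_num
      _ ≤ 2 ^ n := Nat.pow_le_pow_right (by norm_num) (by omega)

include h in
lemma rel_cases {A W : Subgroup S.G} (hW : ¬ W ≤ A) : A.relIndex W = 2 ∨ 4 ≤ A.relIndex W := by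
  obtain ⟨n, hn⟩ := ((isP h).to_subgroup W).index (A.subgroupOf W)
  have e : A.relIndex W = 2 ^ n := hn
  rw [e]
  have h1 : n ≠ 0 := by
    rintro rfl
    exact hW (Subgroup.relIndex_eq_one.1 e)
  by_cases hn2 : n = 1
  · left; rw [hn2]; norm_num
  · right
    calc 4 = 2 ^ 2 := by norm_num
      _ ≤ 2 ^ n := Nat.pow_le_pow_right (by norm_num) (by omega)

omit [Finite S.G] in
lemma rel_card {G : Type} [CommGroup G] [Finite G] {A W : Subgroup G} (hA : A ≤ W) :
    A.relIndex W * Nat.card A = Nat.card W := by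
  have e1 := Subgroup.relIndex_mul_index hA
  have e2 := A.card_mul_index
  have e3 := W.card_mul_index
  have e4 : A.relIndex W * Nat.card A * W.index = Nat.card W * W.index := by
    rw [e3, ← e2, ← e1]
    ring
  exact Nat.eq_of_mul_eq_mul_right (idx_pos W) e4

include h in
/-- two proper subgroups cover at most three quarters -/
lemma union_card {A B W : Subgroup S.G} (hA : A ≤ W) (hB : B ≤ W) (hA' : ¬ W ≤ A)
    (hB' : ¬ W ≤ B) : 4 * ((A : Set S.G) ∪ B).ncard ≤ 3 * Nat.card W := by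
  have hAc : (A : Set S.G).ncard = Nat.card A := rfl
  have hBc : (B : Set S.G).ncard = Nat.card B := rfl
  have r1 := rel_card hA
  have r2 := rel_card hB
  have u1 := Set.ncard_union_le (A : Set S.G) (B : Set S.G)
  rw [hAc, hBc] at u1
  have g4 : ∀ n x y : ℕ, 4 ≤ n → n * x = y → 4 * x ≤ y := by
    intro n x y hn e
    rw [← e]
    exact Nat.mul_le_mul_right _ hn
  rcases rel_cases h hA' with a1 | a1
  · rcases rel_cases h hB' with b1 | b1
    · have u2 := Set.ncard_union_add_ncard_inter (A : Set S.G) (B : Set S.G)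
      have u3 : ((A : Set S.G) ∩ B).ncard = Nat.card (A ⊓ B : Subgroup S.G) := rfl
      have u4 : (A ⊓ B).relIndex W ≤ A.relIndex W * B.relIndex W := Subgroup.relIndex_inf_le
      rw [a1, b1] at u4
      have u5 := rel_card (inf_le_left.trans hA : A ⊓ B ≤ W)
      have u6 : Nat.card W ≤ 4 * Nat.card (A ⊓ B : Subgroup S.G) := by
        rw [← u5]
        exact Nat.mul_le_mul_right _ u4
      rw [a1] at r1
      rw [b1] at r2
      rw [hAc, hBc, u3] at u2
      omega
    · have := g4 _ _ _ b1 r2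
      rw [a1] at r1
      omega
  · have := g4 _ _ _ a1 r1
    rcases rel_cases h hB' with b1 | b1
    · rw [b1] at r2
      omega
    · have := g4 _ _ _ b1 r2
      omega

include h in
/-- a subgroup `W` of index two or four almost all of whose elements are good -/
theorem elem_of_almost_sub (W : Subgroup S.G) (hWi : W.index ≤ 4) (hW : W ≠ ⊤)
    (hB : 16 * (exc h W).ncard < Nat.card S.G) : Elem S := by
  rcases index_cases h (Core S) with hC | hC8
  · exact elem_of_core h hC
  refine Pool.Agent.R19.QS.elem_of_sub h W hWi fun b hbW hbC => ?_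
  by_contra hb
  push Not at hb
  have hb8 : 8 ≤ (D h b ⊓ W).index := (index_cases h _).resolve_left (by omega)
  have hWcard := card_of_index hWi
  have hWn : (W : Set S.G).ncard = Nat.card W := rfl
  have hW2 : 2 ≤ W.index := by
    have := idx_pos W
    have : W.index ≠ 1 := fun e => hW (Subgroup.index_eq_one.1 e)
    omega
  have good : ∀ m ∈ W, m ∉ Core S → m ∉ exc h W → (D h m ⊓ W).index ≤ 4 := by
    intro m hm hmC hme
    by_contra hc
    push Not at hc
    exact hme ⟨hm, hmC, hc⟩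
  by_cases hW3 : 3 ≤ W.index
  · -- index four
    obtain ⟨N0, hN0W, hN0⟩ : ∃ N0 : Subgroup S.G, N0 ≤ W ∧ ∀ m, m ∈ N0 ↔ m ∈ W ∧ W ≤ D h m := by
      refine ⟨W ⊓ ⨅ w : W, D h (w : S.G), inf_le_left, fun m => ?_⟩
      rw [Subgroup.mem_inf, Subgroup.mem_iInf]
      refine and_congr_right fun _ => ⟨fun e w hw => (D_comm h).1 (e ⟨w, hw⟩), fun e w =>
        (D_comm h).1 (e w.2)⟩
    have c1 : ¬ W ≤ N0 := by
      intro hc
      have := ((hN0 b).1 (hc hbW)).2
      rw [inf_eq_right.2 this] at hb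
      omega
    have c2 : ¬ W ≤ Core S ⊓ W := fun hc => hbC (hc hbW).1
    have c3 := union_card h hN0W (inf_le_right : Core S ⊓ W ≤ W) c1 c2
    have c4 : (W : Set S.G) ⊆ ((N0 : Set S.G) ∪ (Core S ⊓ W : Subgroup S.G)) ∪ exc h W := by
      intro m hm
      by_cases hmC : m ∈ Core S
      · exact Or.inl (Or.inr ⟨hmC, hm⟩)
      by_cases hme : m ∈ exc h W
      · exact Or.inr hme
      · refine Or.inl (Or.inl ((hN0 m).2 ⟨hm, ?_⟩))
        have e1 := good m hm hmC hme
        have e2 := Subgroup.relIndex_mul_index (inf_le_right : D h m ⊓ W ≤ W)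
        have e3 := rel_pos (D h m ⊓ W) W
        have e4 : (D h m ⊓ W).relIndex W = 1 := by
          by_contra hc
          have : 2 * 3 ≤ (D h m ⊓ W).relIndex W * W.index := Nat.mul_le_mul (by omega) hW3
          omega
        exact (Subgroup.relIndex_eq_one.1 e4).trans inf_le_left
    have c5 := (Set.ncard_le_ncard c4 (Set.toFinite _)).trans (Set.ncard_union_le _ _)
    rw [hWn] at c5
    omega
  -- index two
  have hWt : W.index = 2 := by omega
  have hG2 : Nat.card S.G = Nat.card W * 2 := by rw [← hWt, W.card_mul_index]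
  have hCW : 4 * Nat.card (Core S ⊓ W : Subgroup S.G) ≤ Nat.card W := by
    have e1 := Nat.le_of_dvd (idx_pos _)
      (Subgroup.index_dvd_of_le (inf_le_left : Core S ⊓ W ≤ Core S))
    have e2 := (Core S ⊓ W).card_mul_index
    have e3 : Nat.card (Core S ⊓ W : Subgroup S.G) * 8 ≤ Nat.card S.G := by
      rw [← e2]
      exact Nat.mul_le_mul_left _ (hC8.trans e1)
    omega
  have hCWn : ((Core S ⊓ W : Subgroup S.G) : Set S.G).ncard =
    Nat.card (Core S ⊓ W : Subgroup S.G) := rfl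
  -- good pairs
  have pair : ∀ m ∈ W, m ∉ Core S → b * m ∉ Core S → m ∉ exc h W → b * m ∉ exc h W →
      (D h b ⊓ W).index = 8 ∧ D h b ⊓ W ≤ D h m := by
    intro m hm m1 m2 m3 m4
    have r : ∀ m ∈ W, m ∉ Core S → m ∉ exc h W → (D h m ⊓ W).relIndex W ≤ 2 := by
      intro m hm m1 m3
      have e1 := good m hm m1 m3
      have e2 := Subgroup.relIndex_mul_index (inf_le_right : D h m ⊓ W ≤ W)
      rw [hWt] at e2
      omega
    have r1 := r m hm m1 m3
    have r2 := r (b * m) (W.mul_mem hbW hm) m2 m4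
    have p0 : (D h m ⊓ W) ⊓ (D h (b * m) ⊓ W) ≤ W := inf_le_left.trans inf_le_right
    have p1 : ((D h m ⊓ W) ⊓ (D h (b * m) ⊓ W)).relIndex W ≤ 4 :=
      Subgroup.relIndex_inf_le.trans (Nat.mul_le_mul r1 r2)
    have p2 := Subgroup.relIndex_mul_index p0
    have p3 : (D h m ⊓ W) ⊓ (D h (b * m) ⊓ W) ≤ D h b ⊓ W := by
      intro y hy
      refine ⟨?_, hy.1.2⟩
      have := D_inf h m (b * m) hy.1.1 hy.2.1
      have e : m * (b * m) = b := by rw [mul_comm b m, ← mul_assoc, h.exp2, one_mul]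
      rwa [e] at this
    have p4 := Subgroup.relIndex_mul_index p3
    have p5 := rel_pos ((D h m ⊓ W) ⊓ (D h (b * m) ⊓ W)) (D h b ⊓ W)
    rw [hWt] at p2
    have p6 : ((D h m ⊓ W) ⊓ (D h (b * m) ⊓ W)).relIndex (D h b ⊓ W) = 1 := by
      by_contra hc
      have : 2 * 8 ≤ ((D h m ⊓ W) ⊓ (D h (b * m) ⊓ W)).relIndex (D h b ⊓ W) *
        (D h b ⊓ W).index := Nat.mul_le_mul (by omega) hb8
      omega
    rw [p6, one_mul] at p4
    refine ⟨by omega, (Subgroup.relIndex_eq_one.1 p6).trans (inf_le_left.trans inf_le_left)⟩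
  -- covering `W`
  have cover : ∀ T : Set S.G, (∀ m ∈ W, m ∉ Core S → b * m ∉ Core S → m ∉ exc h W →
      b * m ∉ exc h W → m ∈ T) →
      (W : Set S.G) ⊆ (T ∪ ((Core S ⊓ W) ⊔ Subgroup.zpowers b : Subgroup S.G)) ∪
        (exc h W ∪ {x | b * x ∈ exc h W}) := by
    intro T hT m hm
    by_cases m3 : m ∈ exc h W
    · exact Or.inr (Or.inl m3)
    by_cases m4 : b * m ∈ exc h W
    · exact Or.inr (Or.inr m4)
    by_cases m1 : m ∈ Core S
    · exact Or.inl (Or.inr (Subgroup.mem_sup_left ⟨m1, hm⟩))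
    by_cases m2 : b * m ∈ Core S
    · refine Or.inl (Or.inr ?_)
      have e : m = (b * m) * b := by rw [mul_comm (b * m) b, bmul h]
      rw [SetLike.mem_coe, e]
      exact Subgroup.mul_mem_sup ⟨m2, W.mul_mem hbW hm⟩ (Subgroup.mem_zpowers b)
    · exact Or.inl (Or.inl (hT m hm m1 m2 m3 m4))
  have hsup : Nat.card ((Core S ⊓ W) ⊔ Subgroup.zpowers b : Subgroup S.G) ≤
      2 * Nat.card (Core S ⊓ W : Subgroup S.G) := by
    have e1 : (((Core S ⊓ W) ⊔ Subgroup.zpowers b : Subgroup S.G) : Set S.G) ⊆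
        ((Core S ⊓ W : Subgroup S.G) : Set S.G) ∪
          {x | b * x ∈ ((Core S ⊓ W : Subgroup S.G) : Set S.G)} := by
      intro x hx
      rcases mem_sup_z h hx with e | e
      · exact Or.inl e
      · refine Or.inr ?_
        rw [mul_comm] at e
        exact e
    have e2 := (Set.ncard_le_ncard e1 (Set.toFinite _)).trans (Set.ncard_union_le _ _)
    have e3 := pre_card ((Core S ⊓ W : Subgroup S.G) : Set S.G) b
    have e4 : (((Core S ⊓ W) ⊔ Subgroup.zpowers b : Subgroup S.G) : Set S.G).ncard =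
      Nat.card ((Core S ⊓ W) ⊔ Subgroup.zpowers b : Subgroup S.G) := rfl
    rw [e4] at e2
    rw [hCWn] at e2 e3
    omega
  have e5 := pre_card (exc h W) b
  have hpos : 0 < Nat.card W := Nat.card_pos
  -- the index is eight
  have hb8' : (D h b ⊓ W).index = 8 := by
    by_contra hc
    have e1 := cover ∅ fun m hm m1 m2 m3 m4 => absurd (pair m hm m1 m2 m3 m4).1 hc
    have e2 := (Set.ncard_le_ncard e1 (Set.toFinite _)).trans (Set.ncard_union_le _ _)
    have e3 := Set.ncard_union_le (exc h W) {x | b * x ∈ exc h W}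
    rw [Set.empty_union] at e2
    have e4 : (((Core S ⊓ W) ⊔ Subgroup.zpowers b : Subgroup S.G) : Set S.G).ncard =
      Nat.card ((Core S ⊓ W) ⊔ Subgroup.zpowers b : Subgroup S.G) := rfl
    rw [e4, hWn] at e2
    omega
  -- the elements of `V(b) ∩ W` are orthogonal to `W`
  have full : ∀ v ∈ D h b ⊓ W, W ≤ D h v := by
    intro v hv
    by_contra hc
    have e1 := cover ((D h v ⊓ W : Subgroup S.G) : Set S.G) fun m hm m1 m2 m3 m4 =>
      ⟨(D_comm h).1 ((pair m hm m1 m2 m3 m4).2 hv), hm⟩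
    have e2 := (Set.ncard_le_ncard e1 (Set.toFinite _)).trans (Set.ncard_union_le _ _)
    have e3 := Set.ncard_union_le (exc h W) {x | b * x ∈ exc h W}
    have e4 := union_card h (inf_le_right : D h v ⊓ W ≤ W)
      (sup_le inf_le_right (by rw [Subgroup.zpowers_le]; exact hbW) :
        (Core S ⊓ W) ⊔ Subgroup.zpowers b ≤ W) (fun e => hc (e.trans inf_le_left)) (by
        intro e
        have : Nat.card W ≤ Nat.card ((Core S ⊓ W) ⊔ Subgroup.zpowers b : Subgroup S.G) :=
          Nat.card_le_card_of_injective _ (Subgroup.inclusion_injective e)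
        omega)
    rw [hWn] at e2
    omega
  have hmemC : ∀ v ∈ D h b ⊓ W, v ∈ Core S := by
    intro v hv
    have e1 := Nat.le_of_dvd (idx_pos _) (Subgroup.index_dvd_of_le (full v hv))
    have e2 : IndexTwo S v := indexTwo_of_index h (by omega)
    exact Subgroup.mem_sInf.2 fun L hL => hL.1 v e2
  have hsub : ∀ v ∈ D h b ⊓ W, b * v ∈ exc h W := by
    intro v hv
    refine ⟨W.mul_mem hbW hv.2, fun e => hbC ?_, ?_⟩
    · exact ((Core S).mul_mem_cancel_right (hmemC v hv)).1 e
    · have e1 : D h (b * v) ⊓ W ≤ D h b ⊓ W := by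
        intro x hx
        refine ⟨?_, hx.2⟩
        have := D_inf h v (b * v) (full v hv hx.2) hx.1
        have e : v * (b * v) = b := by rw [mul_comm b v, ← mul_assoc, h.exp2, one_mul]
        rwa [e] at this
      have e2 := Nat.le_of_dvd (idx_pos _) (Subgroup.index_dvd_of_le e1)
      omega
  have e6 : ((D h b ⊓ W : Subgroup S.G) : Set S.G).ncard ≤ (exc h W).ncard :=
    Set.ncard_le_ncard_of_injOn (fun v => b * v) hsub (fun _ _ _ _ e => mul_left_cancel e)
      (Set.toFinite _)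
  have e7 : ((D h b ⊓ W : Subgroup S.G) : Set S.G).ncard = Nat.card (D h b ⊓ W : Subgroup S.G) :=
    rfl
  have e8 := (D h b ⊓ W).card_mul_index
  rw [hb8'] at e8
  omega

include h in
/-- the general statement -/
theorem elem_of_almost (W : Subgroup S.G) (hWi : W.index ≤ 4)
    (hB : 64 * (exc h W).ncard < Nat.card S.G) : Elem S := by
  by_cases hW : W = ⊤
  · subst hW
    have e : exc h ⊤ = {a : S.G | a ∉ Core S ∧ 4 < (D h a).index} := by
      ext a
      simp only [exc, Subgroup.mem_top, true_and, inf_top_eq]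
    rw [e] at hB
    exact elem_of_step h fun H hH hI => stepTwo_of_almost h hB H hH hI
  · exact elem_of_almost_sub h W hWi hW (by omega)

include h in
/-- value groups of index at most four on `W` outside the core, and few pairs across -/
theorem elem_of_pairs (W : Subgroup S.G) (hWi : W.index ≤ 4)
    (h1 : ∀ a ∈ W, a ∉ Core S → (D h a).index ≤ 4)
    (hP : 128 * (cross S W).ncard < Nat.card S.G ^ 2) : Elem S := by
  by_cases hW : W = ⊤
  · subst hW
    exact Pool.Agent.R19.QS.elem_of_sub h ⊤ hWi fun a ha haC => by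
      rw [inf_top_eq]; exact h1 a ha haC
  refine elem_of_almost_sub h W hWi hW ?_
  have hb := bad_count h W (Core S : Set S.G) h1
  have hsub : exc h W ⊆ {n : S.G | n ∈ W ∧ n ∉ (Core S : Set S.G) ∧ ¬ D h n ≤ W} := by
    rintro a ⟨e1, e2, e3⟩
    refine ⟨e1, e2, fun e => ?_⟩
    rw [inf_eq_left.2 e] at e3
    have := h1 a e1 e2
    omega
  have hle := Set.ncard_le_ncard hsub (Set.toFinite _)
  have e1 : 16 * (exc h W).ncard * Nat.card S.G < Nat.card S.G * Nat.card S.G := by
    calc 16 * (exc h W).ncard * Nat.card S.G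
        ≤ 16 * {n : S.G | n ∈ W ∧ n ∉ (Core S : Set S.G) ∧ ¬ D h n ≤ W}.ncard * Nat.card S.G :=
          Nat.mul_le_mul_right _ (Nat.mul_le_mul_left _ hle)
      _ = 16 * ({n : S.G | n ∈ W ∧ n ∉ (Core S : Set S.G) ∧ ¬ D h n ≤ W}.ncard * Nat.card S.G) := by
          ring
      _ ≤ 16 * (8 * (cross S W).ncard) := Nat.mul_le_mul_left _ hb
      _ = 128 * (cross S W).ncard := by ring
      _ < Nat.card S.G ^ 2 := hP
      _ = Nat.card S.G * Nat.card S.G := by ring
  exact Nat.lt_of_mul_lt_mul_right e1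

include h in
/-- value groups small or of index at most four, many of the latter kind -/
theorem elem_of_dichotomy (k : ℕ) (hk : 0 < k) (hG : 128 * k < Nat.card S.G)
    (hd : ∀ a : S.G, Nat.card (D h a) ≤ k ∨ (D h a).index ≤ 4)
    (hR : 8 * k < {a : S.G | (D h a).index ≤ 4}.ncard) : Elem S := by
  classical
  have hG' : 16 * k < Nat.card S.G := by omega
  obtain ⟨N, hN⟩ : ∃ N : Subgroup S.G, ∀ a, a ∈ N ↔ (D h a).index ≤ 4 :=
    ⟨large h k hG' hd, fun a => Iff.rfl⟩
  have h1 : ∀ a ∈ N, (D h a).index ≤ 4 := fun a ha => (hN a).1 ha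
  have h2 : ∀ a, a ∉ N → Nat.card (D h a) ≤ k := fun a ha =>
    (hd a).resolve_right fun e => ha ((hN a).2 e)
  have hcr := cross_count h N k hk h2
  have hbad := bad_count h N ∅ fun a ha _ => h1 a ha
  have hGpos : 0 < Nat.card S.G := Nat.card_pos
  have hNc : (N : Set S.G).ncard = Nat.card N := rfl
  have hR' : 8 * k < Nat.card N := by
    rw [← hNc]
    have : (N : Set S.G) = {a : S.G | (D h a).index ≤ 4} := by
      ext a; exact hN a
    rw [this]
    exact hR
  -- a good element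
  obtain ⟨n0, hn0, hn0'⟩ : ∃ n ∈ N, D h n ≤ N := by
    by_contra hc
    push Not at hc
    have e1 : (N : Set S.G) ⊆ {n : S.G | n ∈ N ∧ n ∉ (∅ : Set S.G) ∧ ¬ D h n ≤ N} :=
      fun n hn => ⟨hn, fun e => e, hc n hn⟩
    have e2 := Set.ncard_le_ncard e1 (Set.toFinite _)
    have e3 : 8 * k < {n : S.G | n ∈ N ∧ n ∉ (∅ : Set S.G) ∧ ¬ D h n ≤ N}.ncard := by omega
    have e4 : 8 * k * Nat.card S.G <
        {n : S.G | n ∈ N ∧ n ∉ (∅ : Set S.G) ∧ ¬ D h n ≤ N}.ncard * Nat.card S.G :=
      Nat.mul_lt_mul_of_pos_right e3 hGpos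
    have e5 : 8 * k * Nat.card S.G = 8 * (k * Nat.card S.G) := by ring
    omega
  have hN4 : N.index ≤ 4 := by
    have e1 := Subgroup.index_dvd_of_le hn0'
    exact (Nat.le_of_dvd (idx_pos _) e1).trans (h1 _ hn0)
  refine elem_of_pairs h N hN4 (fun a ha _ => h1 a ha) ?_
  calc 128 * (cross S N).ncard ≤ 128 * (k * Nat.card S.G) := Nat.mul_le_mul_left _ hcr.le
    _ = 128 * k * Nat.card S.G := by ring
    _ < Nat.card S.G * Nat.card S.G := Nat.mul_lt_mul_of_pos_right hG hGpos
    _ = Nat.card S.G ^ 2 := by ring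

end Pool.Agent.HP778.QS
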