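import Pool.Agent.HP778.QS.Almost
import Pool.Agent.TH673.VG.FieldInd

/-! Fields in which almost all scalars of a large subgroup have large norm groups. -/

set_option autoImplicit false

namespace Pool.Agent.HP778.QS

open Pool.Agent.H315R3.ETC Pool.Agent.TH188.ET Pool.Agent.TH673.VG

/-- the group of squares of `F*` -/
def squares (F : Type*) [Field F] : Subgroup Fˣ := (powMonoidHom 2 : Fˣ →* Fˣ).range

section
variable {F : Type*} [Field F]

lemma mem_squares {a : Fˣ} : a ∈ squares F ↔ ∃ b : Fˣ, a = b ^ 2 := by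
  rw [squares, MonoidHom.mem_range]
  constructor
  · rintro ⟨b, rfl⟩
    exact ⟨b, rfl⟩
  · rintro ⟨b, rfl⟩
    exact ⟨b, rfl⟩

/-- the structure of a field with its norm groups and core -/
theorem setup (h2 : (2 : F) ≠ 0) (hfin : FinSq F) :
    ∃ (S : QData) (hS : IsQuat S) (φ : Fˣ →* S.G), IsStructureOf F S ∧ Finite S.G ∧
      Function.Surjective φ ∧ φ.ker = squares F ∧
      (∀ a : Fˣ, (D hS (φ a)).comap φ = normGroup a) ∧ fieldCore F = (Core S).comap φ := by
  obtain ⟨S, hS, hSfin, hSq⟩ := exists_structure h2 hfin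
  obtain ⟨φ, hs, hk, hn, h0, hq⟩ := id hS
  have hz : ∀ a b : Fˣ, S.q (φ a) (φ b) = S.zero ↔ NormFrom a b := by
    intro a b
    rw [← qiso_one h2, ← h0, ← map_one φ]
    exact hq a b 1 1
  refine ⟨S, hSq, φ, hS, hSfin, hs, ?_, fun a => ?_, core_comap h2 hs hk hSfin hz⟩
  · ext a
    rw [MonoidHom.mem_ker, hk, mem_squares]
  · ext c
    exact hz a c

variable {S : QData} {φ : Fˣ →* S.G}

/-- the isomorphism of the group of square classes with `G` -/
lemma classes (hker : φ.ker = squares F) (hs : Function.Surjective φ) :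
    ∃ f : Fˣ ⧸ squares F → S.G, Function.Bijective f ∧ ∀ a : Fˣ, f (a : Fˣ ⧸ squares F) = φ a := by
  refine ⟨QuotientGroup.lift (squares F) φ (fun x hx => by rw [← hker] at hx; exact hx), ⟨?_, ?_⟩,
    fun a => rfl⟩
  · rw [injective_iff_map_eq_one]
    intro x hx
    induction x using QuotientGroup.induction_on with
    | H a =>
      have hx' : φ a = 1 := hx
      rw [QuotientGroup.eq_one_iff, ← hker]
      exact hx'
  · intro y
    obtain ⟨a, rfl⟩ := hs y
    exact ⟨(a : Fˣ ⧸ squares F), rfl⟩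

end

section
variable {F : Type*} [Field F]

/-- the square classes of the exceptional elements of `W` -/
def fexc (W : Subgroup Fˣ) : Set (Fˣ ⧸ squares F) :=
  {x | ∃ a : Fˣ, (a : Fˣ ⧸ squares F) = x ∧ a ∈ W ∧ a ∉ fieldCore F ∧
    4 < (normGroup a ⊓ W).index}

/-- transfer of a criterion -/
theorem transfer (h2 : (2 : F) ≠ 0) (hfin : FinSq F) (W : Subgroup Fˣ) (hsW : squares F ≤ W) :
    ∃ (S : QData) (hS : IsQuat S) (φ : Fˣ →* S.G), IsStructureOf F S ∧ Finite S.G ∧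
      Function.Surjective φ ∧ φ.ker = squares F ∧
      (∀ a : Fˣ, (D hS (φ a)).comap φ = normGroup a) ∧ fieldCore F = (Core S).comap φ ∧
      (W.map φ).comap φ = W ∧ (W.map φ).index = W.index ∧
      Nat.card S.G = (squares F).index ∧
      (∀ a : Fˣ, (D hS (φ a)).index = (normGroup a).index) ∧
      (exc hS (W.map φ)).ncard ≤ (fexc W).ncard := by
  obtain ⟨S, hS, φ, hst, hf, hs, hker, hD, hC⟩ := setup h2 hfin
  have hWc : (W.map φ).comap φ = W := Subgroup.comap_map_eq_self (by rw [hker]; exact hsW)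
  obtain ⟨f, hfb, hfa⟩ := classes hker hs
  have hq : Finite (Fˣ ⧸ squares F) := Finite.of_injective f hfb.1
  refine ⟨S, hS, φ, hst, hf, hs, hker, hD, hC, hWc, ?_, ?_, fun a => ?_, ?_⟩
  · rw [← Subgroup.index_comap_of_surjective _ hs, hWc]
  · rw [← hker, Subgroup.index_ker, MonoidHom.range_eq_top.2 hs, Subgroup.card_top]
  · rw [← Subgroup.index_comap_of_surjective _ hs, hD]
  · have hsub : exc hS (W.map φ) ⊆ f '' fexc W := by
      rintro y ⟨h1, h3, h4⟩
      obtain ⟨a, ha, rfl⟩ := Subgroup.mem_map.1 h1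
      refine ⟨(a : Fˣ ⧸ squares F), ⟨a, rfl, ha, ?_, ?_⟩, hfa a⟩
      · rw [hC]
        exact h3
      · rw [← Subgroup.index_comap_of_surjective _ hs, Subgroup.comap_inf, hWc, hD] at h4
        exact h4
    exact (Set.ncard_le_ncard hsub (Set.toFinite _)).trans (Set.ncard_image_le (Set.toFinite _))

theorem field_of_almost (h2 : (2 : F) ≠ 0) (hfin : FinSq F) (W : Subgroup Fˣ)
    (hsW : squares F ≤ W) (hW : W.index ≤ 4) (hB : 64 * (fexc W).ncard < (squares F).index) :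
    ∃ S : QData, Elem S ∧ IsStructureOf F S := by
  obtain ⟨S, hS, φ, hst, hf, hs, hker, hD, hC, hWc, hWi, hcard, -, hexc⟩ := transfer h2 hfin W hsW
  exact ⟨S, elem_of_almost hS (W.map φ) (by omega) (by omega), hst⟩

theorem field_of_almost_sub (h2 : (2 : F) ≠ 0) (hfin : FinSq F) (W : Subgroup Fˣ)
    (hsW : squares F ≤ W) (hW : W.index ≤ 4) (hWt : W ≠ ⊤)
    (hB : 16 * (fexc W).ncard < (squares F).index) :
    ∃ S : QData, Elem S ∧ IsStructureOf F S := by
  obtain ⟨S, hS, φ, hst, hf, hs, hker, hD, hC, hWc, hWi, hcard, -, hexc⟩ := transfer h2 hfin W hsW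
  refine ⟨S, elem_of_almost_sub hS (W.map φ) (by omega) (fun e => hWt ?_) (by omega), hst⟩
  rw [← hWc, e, Subgroup.comap_top]

/-- the pairs of square classes `(x,y)`, `x` outside `W`, `y` in `W`, with `(x,y)` split -/
def fcross (W : Subgroup Fˣ) : Set ((Fˣ ⧸ squares F) × (Fˣ ⧸ squares F)) :=
  {p | ∃ a b : Fˣ, a ∉ W ∧ b ∈ W ∧ b ∈ normGroup a ∧
    p = ((a : Fˣ ⧸ squares F), (b : Fˣ ⧸ squares F))}

theorem field_of_pairs (h2 : (2 : F) ≠ 0) (hfin : FinSq F) (W : Subgroup Fˣ)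
    (hsW : squares F ≤ W) (hW : W.index ≤ 4)
    (h1 : ∀ a ∈ W, a ∉ fieldCore F → (normGroup a).index ≤ 4)
    (hP : 128 * (fcross W).ncard < (squares F).index ^ 2) :
    ∃ S : QData, Elem S ∧ IsStructureOf F S := by
  obtain ⟨S, hS, φ, hst, hf, hs, hker, hD, hC, hWc, hWi, hcard, hDi, -⟩ := transfer h2 hfin W hsW
  obtain ⟨f, hfb, hfa⟩ := classes hker hs
  have hq : Finite (Fˣ ⧸ squares F) := Finite.of_injective f hfb.1
  refine ⟨S, elem_of_pairs hS (W.map φ) (by omega) ?_ ?_, hst⟩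
  · intro x hx hxC
    obtain ⟨a, ha, rfl⟩ := Subgroup.mem_map.1 hx
    rw [hDi]
    exact h1 a ha (by rw [hC]; exact hxC)
  · rw [hcard]
    refine lt_of_le_of_lt (Nat.mul_le_mul_left _ ?_) hP
    have hmem : ∀ a : Fˣ, φ a ∈ W.map φ ↔ a ∈ W := by
      intro a
      rw [← Subgroup.mem_comap, hWc]
    have hsub : cross S (W.map φ) ⊆ (Prod.map f f) '' fcross W := by
      rintro ⟨x, y⟩ ⟨e1, e2, e3⟩
      obtain ⟨a, rfl⟩ := hs x
      obtain ⟨b, rfl⟩ := hs y
      refine ⟨((a : Fˣ ⧸ squares F), (b : Fˣ ⧸ squares F)), ⟨a, b, fun e => e1 ((hmem a).2 e),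
        (hmem b).1 e2, ?_, rfl⟩, ?_⟩
      · rw [← hD, Subgroup.mem_comap]
        exact e3
      · rw [Prod.map_apply, hfa, hfa]
    exact (Set.ncard_le_ncard hsub (Set.toFinite _)).trans (Set.ncard_image_le (Set.toFinite _))

theorem field_of_dichotomy (h2 : (2 : F) ≠ 0) (hfin : FinSq F) (k : ℕ) (hk0 : 0 < k)
    (hG : 128 * k < (squares F).index)
    (hd : ∀ a : Fˣ, (squares F).relIndex (normGroup a) ≤ k ∨ (normGroup a).index ≤ 4)
    (hR : 8 * k < {x : Fˣ ⧸ squares F | ∃ a : Fˣ, (a : Fˣ ⧸ squares F) = x ∧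
      (normGroup a).index ≤ 4}.ncard) :
    ∃ S : QData, Elem S ∧ IsStructureOf F S := by
  obtain ⟨S, hS, φ, hst, hf, hs, hker, hD, hC, -, -, hcard, hDi, -⟩ :=
    transfer h2 hfin ⊤ le_top
  obtain ⟨f, hfb, hfa⟩ := classes hker hs
  have hv : ∀ a : Fˣ, Nat.card (D hS (φ a)) = (squares F).relIndex (normGroup a) := by
    intro a
    rw [← hker, Subgroup.relIndex_ker, ← hD a, Subgroup.map_comap_eq_self_of_surjective hs]
  have hR' : 8 * k < {x : S.G | (D hS x).index ≤ 4}.ncard := by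
    refine lt_of_lt_of_le hR ?_
    refine Set.ncard_le_ncard_of_injOn f ?_ hfb.1.injOn (Set.toFinite _)
    rintro _ ⟨a, rfl, ha⟩
    show (D hS (f (a : Fˣ ⧸ squares F))).index ≤ 4
    rw [hfa, hDi]
    exact ha
  refine ⟨S, elem_of_dichotomy hS k hk0 (by omega) (fun x => ?_) hR', hst⟩
  obtain ⟨a, rfl⟩ := hs x
  rw [hv, hDi]
  exact hd a

end

end Pool.Agent.HP778.QS
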